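import Pool.Agent.helper91.HZF.Spec

/-!
# From circuits without hazards to circuits with free NOT gates (row hzf:QFR)
-/

set_option autoImplicit false

namespace Pool.Agent.HZF

open Finset Pool.Agent.helper38.Neg Pool.Agent.helper55.NT Pool.Agent.LN

theorem QFR_lg_pos (n : ℕ) : 1 ≤ lg n := by
  unfold lg
  exact Nat.le_log_of_pow_le (by norm_num) (by omega)

theorem QFR_arith (q n : ℕ) :
    2 * 2 ^ (q * lg n ^ q) + n + 1 ≤ 2 ^ ((q + 3) * lg n ^ (q + 3)) := by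
  have hl := QFR_lg_pos n
  have hn : n + 2 < 2 ^ (lg n + 1) := by
    unfold lg
    exact Nat.lt_pow_succ_log_self (by norm_num) _
  generalize lg n = l at hl hn
  have h1 : l ^ q ≤ l ^ (q + 3) := Nat.pow_le_pow_right (by omega) (by omega)
  have h2 : l ≤ l ^ (q + 3) := by
    calc l = l ^ 1 := (pow_one l).symm
      _ ≤ l ^ (q + 3) := Nat.pow_le_pow_right (by omega) (by omega)
  have h3 : q * l ^ q ≤ q * l ^ (q + 3) := Nat.mul_le_mul_left _ h1
  have h4 : (q + 3) * l ^ (q + 3) = q * l ^ (q + 3) + 3 * l ^ (q + 3) := by ring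
  have h5 : q * l ^ q + 1 + 1 ≤ (q + 3) * l ^ (q + 3) := by omega
  have h6 : l + 1 + 1 ≤ (q + 3) * l ^ (q + 3) := by
    rw [h4]
    have : 0 ≤ q * l ^ (q + 3) := Nat.zero_le _
    omega
  have h7 : 2 ^ (q * l ^ q + 1 + 1) ≤ 2 ^ ((q + 3) * l ^ (q + 3)) :=
    Nat.pow_le_pow_right (by norm_num) h5
  have h8 : 2 ^ (l + 1 + 1) ≤ 2 ^ ((q + 3) * l ^ (q + 3)) :=
    Nat.pow_le_pow_right (by norm_num) h6
  have h9 : 2 ^ (q * l ^ q + 1 + 1) = 2 * (2 * 2 ^ (q * l ^ q)) := by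
    rw [pow_succ, pow_succ]
    ring
  have h10 : 2 ^ (l + 1 + 1) = 2 * 2 ^ (l + 1) := by
    rw [pow_succ 2 (l + 1)]
    ring
  omega

theorem QFR (h : LBM_stmt) : QFR_stmt := by
  constructor
  · rintro k A ⟨q, hq⟩ hmon
    refine ⟨q + 3, fun n => ?_⟩
    obtain ⟨s, hs, C, o, hC, hH⟩ := hq n
    obtain ⟨s', hs', C', o', hC', hF⟩ := h n s (k n) (k n) C o (A n) hC hH le_rfl (hmon n)
    refine ⟨s', ?_, C', o', hC', hF⟩
    have hs1 : s ≤ 2 ^ (q * lg n ^ q) := hs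
    have h2 := QFR_arith q n
    omega
  · rintro k A ⟨p, hp⟩ hmon
    refine ⟨2 * p + Polynomial.X + 1, fun n => ?_⟩
    obtain ⟨s, hs, C, o, hC, hH⟩ := hp n
    obtain ⟨s', hs', C', o', hC', hF⟩ := h n s (k n) (k n) C o (A n) hC hH le_rfl (hmon n)
    refine ⟨s', ?_, C', o', hC', hF⟩
    have hs1 : s ≤ p.eval n := hs
    have h2 : (2 * p + Polynomial.X + 1 : Polynomial ℕ).eval n = 2 * p.eval n + n + 1 := by
      simp
    rw [h2]
    omega

end Pool.Agent.HZF
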